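import Pool.Agent.Helper61.FN.GoalsD

/-!
# Project FN (MP_06d934_gt): FN-UA, uniform bound for type `A₃`
-/

set_option autoImplicit false

namespace Pool.Agent.Helper98.FN

open Pool.Agent.Helper61.FN Finset

theorem ofSeq_mul (f g : ℕ → ℝ) :
    Hyperreal.ofSeq (fun i ↦ f i * g i) = Hyperreal.ofSeq f * Hyperreal.ofSeq g := rfl

theorem ofSeq_add (f g : ℕ → ℝ) :
    Hyperreal.ofSeq (fun i ↦ f i + g i) = Hyperreal.ofSeq f + Hyperreal.ofSeq g := rfl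

theorem ofSeq_neg (f : ℕ → ℝ) :
    Hyperreal.ofSeq (fun i ↦ - f i) = - Hyperreal.ofSeq f := rfl

theorem ofSeq_div (f g : ℕ → ℝ) :
    Hyperreal.ofSeq (fun i ↦ f i / g i) = Hyperreal.ofSeq f / Hyperreal.ofSeq g := rfl

theorem ofSeq_two : Hyperreal.ofSeq (fun _ ↦ (2 : ℝ)) = 2 := rfl

theorem ofSeq_div_two (f : ℕ → ℝ) :
    Hyperreal.ofSeq (fun i ↦ f i / 2) = Hyperreal.ofSeq f / 2 := rfl

theorem ofSeq_cA (n : ℕ → Fin 4 → ℝ) :
    (fun j ↦ Hyperreal.ofSeq fun i ↦ cA (n i) j) =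
      cA fun j ↦ Hyperreal.ofSeq fun i ↦ n i j := by
  funext j
  fin_cases j <;> rfl

theorem ofSeq_dA (n : ℕ → Fin 4 → ℝ) :
    (fun j ↦ Hyperreal.ofSeq fun i ↦ dA (n i) j) =
      dA fun j ↦ Hyperreal.ofSeq fun i ↦ n i j := by
  funext j
  fin_cases j <;> rfl

theorem goalUA (hU : G_ULT) (hA : G_AFN) : G_UA := by
  by_contra hcon
  have h1 : ∀ C : ℕ, ∃ n : Fin 4 → ℕ, (∀ i, 0 < n i) ∧
      (C : ℕ∞) ≤ (Sols mA (cA fun i ↦ (n i : ℝ)) (dA fun i ↦ (n i : ℝ))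
        (∑ i, (n i : ℝ))).encard := by
    intro C
    by_contra h2
    apply hcon
    refine ⟨C, fun n hn ↦ ?_⟩
    by_contra h3
    exact h2 ⟨n, hn, le_of_lt (not_le.mp h3)⟩
  choose n hn hC using h1
  have h2 := hU (Fin 6) (Fin 18) mA (fun i ↦ cA fun j ↦ (n i j : ℝ))
    (fun i ↦ dA fun j ↦ (n i j : ℝ)) (fun i ↦ ∑ j, (n i j : ℝ)) hC
  have h3 := ofSeq_cA fun i j ↦ (n i j : ℝ)
  have h4 := ofSeq_dA fun i j ↦ (n i j : ℝ)
  rw [h3, h4] at h2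
  refine h2 (hA Hyperreal (fun j ↦ Hyperreal.ofSeq fun i ↦ (n i j : ℝ)) _ ?_ ?_)
  · intro j
    refine Hyperreal.ofSeq_lt_ofSeq.mpr (Filter.Eventually.of_forall fun i ↦ ?_)
    exact_mod_cast hn i j
  · refine ne_of_gt ?_
    refine Hyperreal.ofSeq_lt_ofSeq.mpr (Filter.Eventually.of_forall fun i ↦ ?_)
    have h5 : 0 < ∑ j, n i j := Finset.sum_pos (fun j _ ↦ hn i j) Finset.univ_nonempty
    exact_mod_cast h5

end Pool.Agent.Helper98.FN
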